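import Pool.Agent.Lib.MP_50ecf8_co.LOC.KEL
import Pool.Agent.Lib.MP_50ecf8_co.LOC.INC
import Pool.Agent.Lib.MP_50ecf8_co.LOC.TOG
import Pool.Agent.Lib.MP_50ecf8_co.LOC.CNTS
import Pool.Agent.Lib.MP_50ecf8_co.LOC.CRITO

/-!
# A counting criterion for Q1: few near automorphisms

Let `G` be a graph on `p` vertices and let `a`, `b`, `τ` be as in part 2 of condition (H).
A vertex `x` outside a set `Y` is located by `Y` if every other vertex outside `Y` is told apart from
`x` by a vertex of `Y`, that is, has a neighbourhood in `Y` different from that of `x`. Let `X₀` be a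
set of vertices which contains `a`, and let `X` be obtained from `X₀` by adding vertices one after the
other, each located by the current set. Suppose that `X` is locating: distinct vertices outside `X`
have distinct neighbourhoods in `X`. Put `m = p - |X|`. A near automorphism which misses `k` vertices
is an embedding in `G` of an induced subgraph on `p - k` vertices. Let `N` be the number, up to
automorphisms of `G`, of embeddings `g` of the induced subgraph on the seed `X₀` in `G` with
`g(a) = a` or `g(a) = b` which extend to a near automorphism whose domain contains `X` and which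
misses `k` vertices. If `N 3 ^ k < C(m, k)` for some `k`, then some automorphism of `G` maps `a` to
`b`. (Because the sum of `C(m, k) 3 ^ (m - k)` is `4 ^ m`, this holds for some `k` as soon as `G` has
fewer than `(4/3) ^ m / (m + 1)` embeddings of the seed.)

Idea of the proof. Suppose that there is no such automorphism. By the rooted form of Kelly's lemma
and inclusion and exclusion, for every set `S` which contains `a` the signed number of partial
isomorphisms of `G` whose domain contains `S` and which map `a` to `a`, or the one for `b`, is not `0`.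
A sign reversing involution then gives a partial isomorphism `J` with domain exactly `S` which is
closed: every pair of vertices compatible with `J` is in conflict with another pair compatible
with `J`. This remains true if `J` is composed with an automorphism of `G`. For a fixed restriction
to the seed `X₀`, at most `3 ^ k` closed partial isomorphisms are defined on `X` and undefined at
exactly `k` vertices; but there are `C(m, k)` choices for `S ⊇ X`.
-/

set_option autoImplicit false

namespace Pool.Agent.Results.MP_50ecf8_co.LocatingSets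

/-- Part 2 of condition (H): `τ` is a bijection from the vertices other than `a` to the vertices
other than `b`, and for every `i ≠ a` some isomorphism `G - i → G - τ(i)` maps `a` to `b`. -/
def CondH2 {V : Type} (G : SimpleGraph V) (a b : V) : Prop :=
  ∃ τ : {v : V // v ≠ a} ≃ {v : V // v ≠ b},
    ∀ (i : V) (hi : i ≠ a),
      ∃ θ : G.induce ({i}ᶜ : Set V) ≃g G.induce ({(τ ⟨i, hi⟩ : V)}ᶜ : Set V),
        ∀ x : ({i}ᶜ : Set V), (x : V) = a → (θ x : V) = b

/-- `x` is located by `Y`: every vertex `u ≠ x` outside `Y` is told apart from `x` by some `w ∈ Y`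
(`w` is adjacent to exactly one of `u` and `x`). -/
def LocatedBy {V : Type} (G : SimpleGraph V) (Y : Finset V) (x : V) : Prop :=
  ∀ u : V, u ∉ Y → u ≠ x → ∃ w ∈ Y, ¬(G.Adj w u ↔ G.Adj w x)

/-- `X` is reached from the seed `X₀`: it is obtained from `X₀` by adding vertices one after the
other, each located by the current set. -/
inductive Reached {V : Type} (G : SimpleGraph V) (X₀ : Finset V) : Finset V → Prop
  | base : Reached G X₀ X₀
  | step {Y : Finset V} {x : V} (hx : x ∉ Y) : Reached G X₀ Y → LocatedBy G Y x →
      Reached G X₀ (Finset.cons x Y hx)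

/-- `X` is locating: any two distinct vertices outside `X` have different neighbourhoods in `X`. -/
def IsLocating {V : Type} (G : SimpleGraph V) (X : Finset V) : Prop :=
  ∀ u v : V, u ∉ X → v ∉ X → u ≠ v → ∃ w ∈ X, ¬(G.Adj w u ↔ G.Adj w v)

/-- `g` is an embedding (injective map preserving adjacency and non-adjacency) of the induced subgraph
on `X₀` in `G` which maps `a` to `a` or to `b` and which extends to an embedding `J` in `G` of the
induced subgraph on some set `S ⊇ X` of all but `k` vertices. -/
def IsNear {V : Type} [Fintype V] (G : SimpleGraph V) (a b : V) (X₀ X : Finset V) (ha : a ∈ X₀)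
    (k : ℕ) (g : G.induce (X₀ : Set V) ↪g G) : Prop :=
  (g ⟨a, Finset.mem_coe.mpr ha⟩ = a ∨ g ⟨a, Finset.mem_coe.mpr ha⟩ = b) ∧
    ∃ S : Finset V, X ⊆ S ∧ S.card + k = Fintype.card V ∧
      ∃ J : G.induce (S : Set V) ↪g G, ∀ (x : (X₀ : Set V)) (y : (S : Set V)),
        (x : V) = y → J y = g x

/-- The number of these embeddings, up to automorphisms of `G`: the number of classes when `g` and
`g'` are identified if `g' = φ ∘ g` for some automorphism `φ` of `G`. -/
noncomputable def classes {V : Type} [Fintype V] (G : SimpleGraph V) (a b : V) (X₀ X : Finset V)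
    (ha : a ∈ X₀) (k : ℕ) : ℕ :=
  Nat.card (Quot fun g g' : {g : G.induce (X₀ : Set V) ↪g G // IsNear G a b X₀ X ha k g} =>
    ∃ φ : G ≃g G, ∀ x, g'.1 x = φ (g.1 x))

open scoped Classical in
lemma reach_of {V : Type} {G : SimpleGraph V} {X₀ X : Finset V}
    (hR : Reached G X₀ X) : Pool.Agent.Lib.MP50ecf8.LOC.Reach G X₀ X := by
  induction hR with
  | base => exact Pool.Agent.Lib.MP50ecf8.LOC.Reach.base
  | step hx _ hu ih =>
    rw [Finset.cons_eq_insert]
    exact Pool.Agent.Lib.MP50ecf8.LOC.Reach.step ih hx hu

/-- **Counting criterion.** -/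
theorem result (V : Type) [Fintype V] (G : SimpleGraph V) (a b : V)
    (h : CondH2 G a b) (X₀ X : Finset V) (ha : a ∈ X₀) (hR : Reached G X₀ X)
    (hX : IsLocating G X) (k : ℕ)
    (hN : classes G a b X₀ X ha k * 3 ^ k < (Fintype.card V - X.card).choose k) :
    ∃ φ : G ≃g G, φ a = b := by
  by_contra hno
  have hk : k ≤ Fintype.card V - X.card := by
    by_contra hk
    rw [Nat.choose_eq_zero_of_lt (not_le.mp hk)] at hN
    exact Nat.not_lt_zero _ hN
  obtain ⟨R, hRc, hRep⟩ := Pool.Agent.Lib.MP50ecf8.LOC.reps G a b X₀ X ha k
  have h1 := Pool.Agent.Lib.MP50ecf8.LOC.critO Pool.Agent.Lib.MP50ecf8.LOC.specKEL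
    Pool.Agent.Lib.MP50ecf8.LOC.inc Pool.Agent.Lib.MP50ecf8.LOC.specTOG
    Pool.Agent.Lib.MP50ecf8.LOC.specCNTS V G a b X₀ X ha (reach_of hR)
    (fun u hu v hv huv => hX u v hu hv huv) h hno k hk R hRep
  have h2 : R.card ≤ classes G a b X₀ X ha k := hRc
  have h3 := Nat.mul_le_mul_left (3 ^ k) h2
  rw [mul_comm] at hN
  exact absurd (h1.trans h3) (not_le.mpr hN)

end Pool.Agent.Results.MP_50ecf8_co.LocatingSets
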