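import Pool.Agent.Lib.MP_50ecf8_co.LOC.KEL
import Pool.Agent.Lib.MP_50ecf8_co.LOC.INC
import Pool.Agent.Lib.MP_50ecf8_co.LOC.TOG
import Pool.Agent.Lib.MP_50ecf8_co.LOC.DIS
import Pool.Agent.Lib.MP_50ecf8_co.LOC.CDS2
import Pool.Agent.Lib.MP_50ecf8_co.LOC.CDST
import Pool.Agent.Lib.MP_50ecf8_co.LOC.DET
import Pool.Agent.Lib.MP_50ecf8_co.LOC.BCT
import Pool.Agent.Lib.MP_50ecf8_co.LOC.PRM
import Pool.Agent.Lib.MP_50ecf8_co.LOC.BONT
import Pool.Agent.Lib.MP_50ecf8_co.LOC.H2T
import Pool.Agent.Lib.MP_50ecf8_co.LOC.CONT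
import Pool.Agent.Lib.MP_50ecf8_co.LOC.STPM
import Pool.Agent.Lib.MP_50ecf8_co.LOC.MAINU
import Pool.Agent.Lib.MP_50ecf8_co.LOC.PCMX
import Pool.Agent.Lib.MP_50ecf8_co.LOC.NUSX
import Pool.Agent.Lib.MP_50ecf8_co.LOC.PHIY
import Pool.Agent.Lib.MP_50ecf8_co.LOC.SPLY
import Pool.Agent.Lib.MP_50ecf8_co.LOC.ISON
import Pool.Agent.Lib.MP_50ecf8_co.LOC.PHSN
import Pool.Agent.Lib.MP_50ecf8_co.LOC.ITN
import Pool.Agent.Lib.MP_50ecf8_co.LOC.NETY
import Pool.Agent.Lib.MP_50ecf8_co.LOC.CHNY
import Pool.Agent.Lib.MP_50ecf8_co.LOC.NUNN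
import Pool.Agent.Lib.MP_50ecf8_co.LOC.NUBN
import Pool.Agent.Lib.MP_50ecf8_co.LOC.TRZ
import Pool.Agent.Lib.MP_50ecf8_co.LOC.FSTN
import Pool.Agent.Lib.MP_50ecf8_co.LOC.STGN
import Pool.Agent.Lib.MP_50ecf8_co.LOC.FREN
import Pool.Agent.Lib.MP_50ecf8_co.LOC.PAYZ
import Pool.Agent.Lib.MP_50ecf8_co.LOC.SEQZ
import Pool.Agent.Lib.MP_50ecf8_co.LOC.CNTZ
import Pool.Agent.Lib.MP_50ecf8_co.LOC.NUTN
import Pool.Agent.Lib.MP_50ecf8_co.LOC.NUPN
import Pool.Agent.Lib.MP_50ecf8_co.LOC.NUFN
import Pool.Agent.Lib.MP_50ecf8_co.LOC.NUMN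
import Pool.Agent.Lib.MP_50ecf8_co.LOC.DLB
import Pool.Agent.Lib.MP_50ecf8_co.LOC.NST
import Pool.Agent.Lib.MP_50ecf8_co.LOC.NPOW
import Pool.Agent.Lib.MP_50ecf8_co.LOC.FINN

/-!
# Q1 when few vertices are told apart by fewer than `100000 log2 D` vertices

Two vertices are twins if no other vertex is adjacent to exactly one of them. Let `T` be a set which
contains exactly one vertex of each class of twins of `G` (the set of all vertices if there are no
twins), let `W ⊆ C ⊆ T`, and let `B` be a small union of classes of twins. Every vertex of `W` has at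
most `D` neighbours in `T ∪ B`; the other vertices may have any degree, and the classes may have any
sizes. We prove Q1 for `G` if `G[W]` is connected or `W = T`, distinct vertices of `T` outside
`B ∪ C` have different neighbourhoods in `B ∪ C`, and each vertex `v` of `C` outside `B` has few near
twins: for each `r < 100000 log2 D` at most `2 ^ (r ^ (1/3) / 20)` vertices of `T` outside `B`, `v`
included, are told apart from `v` by at most `r` vertices of `W`. This holds if each such `v` is told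
apart from each other vertex of `T` outside `B` by at least `100000 log2 D` vertices of `W`. In the
main case `B` is empty and `W = C = T`.

Idea of the proof. A seed which contains `a` (it may be replaced by a twin) is built from a connected
subset of `W` of size at most `p / (25 log2 D)`, where `p` is the number of the vertices of `T ∪ B`; the
number of the ways in which it can be embedded, up to twins, is bounded by revealing its vertices one
after the other. Further vertices are revealed at a price of `O(log log D + (log D) ^ (1/3))` bits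
each: as long as some vertex of `W` splits a trace class into two parts with at least `m` elements
each, `m` of order `(log2 D)^2` times the largest number of near twins, it is put into the seed (an
entropy argument shows that this happens seldom); after this, in every big class all vertices of `C`,
except for at most as many as a vertex has near twins, have at least `50000 log2 D` vertices of `W`
which isolate them in a small part, and random vertices of `W`, revealed in phases, reduce the number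
of vertices in big classes geometrically. The near twins are then told apart in stages, as in
`ToldApart`: for `t = 100000 log2 D`, `t / 2`, `t / 4`, and so on. The remaining vertices of `C` are
located up to twins, so that further vertices of `W` are free, and some of these locate the rest.
For each number `k` and each embedding of the seed, at most `4 ^ k` domains with `k` missing vertices
carry a closed partial isomorphism.
-/

set_option autoImplicit false

namespace Pool.Agent.Results.MP_50ecf8_co.LogSeparation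

/-- Part 2 of condition (H): `τ` is a bijection from the vertices other than `a` to the vertices
other than `b`, and for every `i ≠ a` some isomorphism `G - i → G - τ(i)` maps `a` to `b`. -/
def CondH2 {V : Type} (G : SimpleGraph V) (a b : V) : Prop :=
  ∃ τ : {v : V // v ≠ a} ≃ {v : V // v ≠ b},
    ∀ (i : V) (hi : i ≠ a),
      ∃ θ : G.induce ({i}ᶜ : Set V) ≃g G.induce ({(τ ⟨i, hi⟩ : V)}ᶜ : Set V),
        ∀ x : ({i}ᶜ : Set V), (x : V) = a → (θ x : V) = b

/-- `u` and `v` are twins (or equal): no other vertex is adjacent to exactly one of them. -/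
def Twins {V : Type} (G : SimpleGraph V) (u v : V) : Prop :=
  ∀ w : V, w ≠ u → w ≠ v → (G.Adj w u ↔ G.Adj w v)

/-- The number of vertices of `W` which tell `u` and `v` apart: the vertices `w ∈ W`, different
from `u` and `v`, which are adjacent to exactly one of `u` and `v`. -/
noncomputable def toldApart {V : Type} (G : SimpleGraph V) (W : Set V) (u v : V) : ℕ :=
  {w : V | w ∈ W ∧ w ≠ u ∧ w ≠ v ∧ ¬(G.Adj w u ↔ G.Adj w v)}.ncard

/-- The vertices `u` of `T` outside `B` which are told apart from `v` by at most `r` vertices of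
`W`. -/
def nearTwins {V : Type} (G : SimpleGraph V) (T B W : Set V) (v : V) (r : ℕ) : Set V :=
  {u : V | u ∈ T ∧ u ∉ B ∧ toldApart G W v u ≤ r}

/-- **Q1 for graphs whose vertices have few near twins, at the scale `100000 log2 D`.** -/
theorem result (V : Type) [Fintype V] (G : SimpleGraph V) (a b : V) (h : CondH2 G a b)
    (T : Set V) (hT : ∀ v : V, ∃! t : V, t ∈ T ∧ Twins G v t)
    (D : ℕ) (hD : 2 ≤ D) (W C B : Set V) (hWC : W ⊆ C) (hCT : C ⊆ T)
    (hBt : ∀ u ∈ B, ∀ v : V, Twins G u v → v ∈ B)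
    (hdeg : ∀ w ∈ W, {x : V | x ∈ T ∪ B ∧ G.Adj w x}.ncard ≤ D)
    (hW : (G.induce W).Connected ∨ W = T)
    (hB : (B.ncard : ℝ) ≤ W.ncard / (1000 * Real.logb 2 D))
    (hBW : ∀ v ∈ B, v ∈ W ∨ ∃ w ∈ W, G.Adj v w)
    (hnear : ∀ v ∈ C, v ∉ B → ∀ r : ℕ, (r : ℝ) < 100000 * Real.logb 2 D →
      ((nearTwins G T B W v r).ncard : ℝ) ≤ (2 : ℝ) ^ ((r : ℝ) ^ ((1 : ℝ) / 3) / 20))
    (hrest : ∀ u ∈ T, u ∉ B ∪ C → ∀ v ∈ T, v ∉ B ∪ C → u ≠ v →
      ∃ w ∈ B ∪ C, ¬(G.Adj w u ↔ G.Adj w v)) :
    ∃ φ : G ≃g G, φ a = b := by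
  classical
  have hTrv : Pool.Agent.Lib.MP50ecf8.LOC.Trv G T.toFinset := by
    refine ⟨fun v => ?_, fun s hs t ht hst => ?_⟩
    · obtain ⟨t, ht, -⟩ := hT v
      exact ⟨t, by simpa using ht.1, ht.2⟩
    · obtain ⟨r, -, hr⟩ := hT s
      have h1 := hr s ⟨by simpa using hs, fun _ _ _ => Iff.rfl⟩
      have h2 := hr t ⟨by simpa using ht, hst⟩
      exact h1.trans h2.symm
  have hsep : ∀ u v : V, toldApart G W u v =
      (Pool.Agent.Lib.MP50ecf8.LOC.sep G u v ∩ W.toFinset).card := by
    intro u v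
    rw [toldApart, Pool.Agent.Lib.MP50ecf8.LOC.sep, Set.ncard_eq_toFinset_card']
    congr 1
    ext w
    simp only [Set.mem_toFinset, Set.mem_ofPred_eq, Finset.mem_inter, Finset.mem_filter,
      Finset.mem_univ, true_and]
    tauto
  refine Pool.Agent.Lib.MP50ecf8.LOC.finN
    (Pool.Agent.Lib.MP50ecf8.LOC.specITN Pool.Agent.Lib.MP50ecf8.LOC.specPHIY
      (Pool.Agent.Lib.MP50ecf8.LOC.specSPLY Pool.Agent.Lib.MP50ecf8.LOC.specPHIY)
      (Pool.Agent.Lib.MP50ecf8.LOC.specPHSN Pool.Agent.Lib.MP50ecf8.LOC.specISON)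
      Pool.Agent.Lib.MP50ecf8.LOC.specPCMX)
    Pool.Agent.Lib.MP50ecf8.LOC.specPHIY Pool.Agent.Lib.MP50ecf8.LOC.specFSTN
    Pool.Agent.Lib.MP50ecf8.LOC.specSTGN Pool.Agent.Lib.MP50ecf8.LOC.specFREN
    Pool.Agent.Lib.MP50ecf8.LOC.specNETY Pool.Agent.Lib.MP50ecf8.LOC.specPCMX
    Pool.Agent.Lib.MP50ecf8.LOC.specCHNY Pool.Agent.Lib.MP50ecf8.LOC.specNUSX
    Pool.Agent.Lib.MP50ecf8.LOC.specNUNN Pool.Agent.Lib.MP50ecf8.LOC.specNUTN
    Pool.Agent.Lib.MP50ecf8.LOC.specNUBN Pool.Agent.Lib.MP50ecf8.LOC.specNUPN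
    (Pool.Agent.Lib.MP50ecf8.LOC.specDLB Pool.Agent.Lib.MP50ecf8.LOC.specNUMN)
    Pool.Agent.Lib.MP50ecf8.LOC.specNST Pool.Agent.Lib.MP50ecf8.LOC.specNPOW
    (Pool.Agent.Lib.MP50ecf8.LOC.specCDST Pool.Agent.Lib.MP50ecf8.LOC.specCDS2)
    Pool.Agent.Lib.MP50ecf8.LOC.specTRZ
    (Pool.Agent.Lib.MP50ecf8.LOC.specCNTZ
      (Pool.Agent.Lib.MP50ecf8.LOC.specBCT Pool.Agent.Lib.MP50ecf8.LOC.specDET)
      Pool.Agent.Lib.MP50ecf8.LOC.specSTPM
      (Pool.Agent.Lib.MP50ecf8.LOC.specPAYZ Pool.Agent.Lib.MP50ecf8.LOC.specPRM)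
      Pool.Agent.Lib.MP50ecf8.LOC.specSEQZ)
    (Pool.Agent.Lib.MP50ecf8.LOC.specMAINU Pool.Agent.Lib.MP50ecf8.LOC.specKEL
      Pool.Agent.Lib.MP50ecf8.LOC.inc Pool.Agent.Lib.MP50ecf8.LOC.specTOG)
    Pool.Agent.Lib.MP50ecf8.LOC.specBONT Pool.Agent.Lib.MP50ecf8.LOC.specNUFN
    Pool.Agent.Lib.MP50ecf8.LOC.specCONT Pool.Agent.Lib.MP50ecf8.LOC.specH2T
    Pool.Agent.Lib.MP50ecf8.LOC.specDIS
    h T.toFinset B.toFinset C.toFinset W.toFinset D hTrv ?_ ?_ ?_ hD ?_ ?_ ?_ ?_ ?_ ?_
  · exact Set.toFinset_subset_toFinset.mpr hCT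
  · exact Set.toFinset_subset_toFinset.mpr hWC
  · intro u hu v huv
    have hu' : u ∈ B := by simpa using hu
    simpa using hBt u hu' v huv
  · intro w hw
    refine le_trans (le_of_eq ?_) (hdeg w (by simpa using hw))
    rw [Set.ncard_eq_toFinset_card']
    congr 1
    ext x
    simp only [Set.mem_toFinset, Set.mem_ofPred_eq, Finset.mem_filter, Finset.mem_union,
      Set.mem_union]
  · rcases hW with hW | hW
    · left
      rwa [Set.coe_toFinset]
    · right
      rw [hW]
  · rwa [← Set.ncard_eq_toFinset_card', ← Set.ncard_eq_toFinset_card']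
  · intro v hv hvW
    rcases hBW v (by simpa using hv) with h1 | ⟨w, hw, h1⟩
    · exact absurd (by simpa using h1) hvW
    · exact ⟨w, by simpa using hw, h1⟩
  · intro v hv hvB r hr
    refine le_trans (le_of_eq ?_) (hnear v (by simpa using hv) (by simpa using hvB) r hr)
    rw [Set.ncard_eq_toFinset_card']
    congr 2
    ext u
    rw [Finset.mem_filter, Set.mem_toFinset, Set.mem_toFinset, Set.mem_toFinset, nearTwins,
      Set.mem_ofPred_eq, hsep]
  · intro u huT hu v hvT hv huv
    obtain ⟨w, hw, h1⟩ := hrest u (by simpa using huT) (by simpa using hu) v (by simpa using hvT)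
      (by simpa using hv) huv
    exact ⟨w, by simpa using hw, h1⟩

end Pool.Agent.Results.MP_50ecf8_co.LogSeparation
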