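import Pool.Agent.Lib.MP_50ecf8_co.Rooted

/-!
# A rooted Godsil-McKay theorem

Let `G` be a graph with `p ≥ 3` vertices and let `a`, `b`, `τ` be as in condition (H), part 2: `τ` is
a bijection from the vertices `≠ a` to the vertices `≠ b` and for every `i ≠ a` there is an
isomorphism `G - i → G - τ(i)` which maps `a` to `b`.

Let `A` be the adjacency matrix, `D` the diagonal matrix of the neighbourhood of `a`, and let
`walkSpace G a` be the span of all vectors `(A + t D)^k 1` and `(A + t D)^k e_a`, `t` real, `k ≥ 0`.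
We show that `τ`, extended by `a ↦ b`, is an automorphism of `G` if `walkSpace G a` has codimension
at most one.
-/

set_option autoImplicit false

namespace Pool.Agent.Results.MP_50ecf8_co.RootedGodsilMcKay

open Matrix Pool.Agent.Lib.MP50ecf8

variable {V : Type} [Fintype V] [DecidableEq V]

/-- The matrix `A + t D`: adjacency matrix plus `t` times the diagonal matrix of the neighbourhood
of the vertex `a`. -/
def rootMatrix (G : SimpleGraph V) [DecidableRel G.Adj] (a : V) (t : ℝ) : Matrix V V ℝ :=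
  G.adjMatrix ℝ + t • Matrix.diagonal fun v => if G.Adj a v then 1 else 0

/-- The span of all vectors `(A + t D)^k 1` and `(A + t D)^k e_a`. -/
def walkSpace (G : SimpleGraph V) [DecidableRel G.Adj] (a : V) : Submodule ℝ (V → ℝ) :=
  Submodule.span ℝ {w | ∃ (t : ℝ) (k : ℕ),
    w = (rootMatrix G a t ^ k) *ᵥ 1 ∨ w = (rootMatrix G a t ^ k) *ᵥ Pi.single a 1}

omit [Fintype V] in
lemma rootMatrix_eq (G : SimpleGraph V) [DecidableRel G.Adj] (a : V) (t : ℝ) :
    rootMatrix G a t = K G a 0 1 t 0 := by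
  ext u v
  simp only [rootMatrix, K, Matrix.add_apply, Matrix.smul_apply, SimpleGraph.adjMatrix_apply,
    Matrix.diagonal_apply, smul_eq_mul]
  by_cases h1 : u = v
  · subst h1
    by_cases h2 : G.Adj a u <;> simp [h2]
  · by_cases h2 : G.Adj u v <;> simp [h1, h2]

omit [Fintype V] [DecidableEq V] in
/-- the second part of condition (H) in the form used in the library file -/
lemma deck_of {G : SimpleGraph V} {a b : V} (τ : {v : V // v ≠ a} ≃ {v : V // v ≠ b})
    (hτ : ∀ (i : V) (hi : i ≠ a),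
      ∃ θ : G.induce ({i}ᶜ : Set V) ≃g G.induce ({(τ ⟨i, hi⟩ : V)}ᶜ : Set V),
        ∀ x : ({i}ᶜ : Set V), (x : V) = a → (θ x : V) = b) : Deck G a b τ := by
  rintro ⟨i, hi⟩
  obtain ⟨θ, hθ⟩ := hτ i hi
  have h1 : ∀ (c x : V), x ≠ c ↔ x ∈ ({c}ᶜ : Set V) := fun c x => by simp
  refine ⟨((Equiv.subtypeEquivRight (h1 i)).trans θ.toEquiv).trans
    (Equiv.subtypeEquivRight (h1 (τ ⟨i, hi⟩ : V))).symm, ?_, ?_⟩
  · rintro ⟨u, hu⟩ ⟨v, hv⟩
    exact θ.map_rel_iff' (a := ⟨u, (h1 i u).mp hu⟩) (b := ⟨v, (h1 i v).mp hv⟩)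
  · rintro ⟨u, hu⟩ hua
    exact hθ ⟨u, (h1 i u).mp hu⟩ hua

/-- Let `(G, a, b, τ)` satisfy part 2 of condition (H). If `walkSpace G a` has codimension at most
one, then the extension of `τ` by `a ↦ b` is an automorphism of `G`. -/
theorem result (V : Type) [Fintype V] [DecidableEq V] (G : SimpleGraph V) [DecidableRel G.Adj]
    (a b : V) (hp : 3 ≤ Fintype.card V) (τ : {v : V // v ≠ a} ≃ {v : V // v ≠ b})
    (hτ : ∀ (i : V) (hi : i ≠ a),
      ∃ θ : G.induce ({i}ᶜ : Set V) ≃g G.induce ({(τ ⟨i, hi⟩ : V)}ᶜ : Set V),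
        ∀ x : ({i}ᶜ : Set V), (x : V) = a → (θ x : V) = b)
    (hdim : Fintype.card V ≤ Module.finrank ℝ (walkSpace G a) + 1) :
    ∃ φ : G ≃g G, φ a = b ∧ ∀ (i : V) (hi : i ≠ a), φ i = (τ ⟨i, hi⟩ : V) := by
  classical
  have hD := deck_of τ hτ
  have hker : ∀ φ : V ≃ V, φ a = b → (∀ (i : V) (hi : i ≠ a), φ i = (τ ⟨i, hi⟩ : V)) →
      ∀ w ∈ walkSpace G a, Cm G φ *ᵥ w = 0 := by
    intro φ hφa hφ w hw
    have hφ' : ∀ i : {v // v ≠ a}, φ i.1 = (τ i).1 := fun i => hφ i.1 i.2
    induction hw using Submodule.span_induction with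
    | mem w hw =>
      obtain ⟨t, k, rfl | rfl⟩ := hw
      · rw [rootMatrix_eq]
        exact ext_param a (Cm G φ) 1 k (fun α hα => ker_one hD hp hα φ hφa hφ' k) t
      · rw [rootMatrix_eq]
        exact ext_param a (Cm G φ) (Pi.single a 1) k
          (fun α hα => ker_e hD hp hα φ hφa hφ' k) t
    | zero => exact mulVec_zero _
    | add x y _ _ hx hy => rw [mulVec_add, hx, hy, add_zero]
    | smul c x _ hx => rw [mulVec_smul, hx, smul_zero]
  have hCm : ∀ (φ : V ≃ V) (u v : V), Cm G φ u v =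
      G.adjMatrix ℝ u v - G.adjMatrix ℝ (φ u) (φ v) := by
    intro φ u v
    simp only [Cm, SimpleGraph.adjMatrix_apply]
    by_cases h1 : G.Adj u v <;> by_cases h2 : G.Adj (φ u) (φ v) <;> simp [h1, h2]
  let φ : V ≃ V :=
    { toFun := fun u => if h : u = a then b else (τ ⟨u, h⟩ : V)
      invFun := fun u => if h : u = b then a else (τ.symm ⟨u, h⟩ : V)
      left_inv := by
        intro u
        by_cases h : u = a
        · simp [h]
        · have h2 : (τ ⟨u, h⟩ : V) ≠ b := (τ ⟨u, h⟩).2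
          simp [h, h2]
      right_inv := by
        intro u
        by_cases h : u = b
        · simp [h]
        · have h2 : (τ.symm ⟨u, h⟩ : V) ≠ a := (τ.symm ⟨u, h⟩).2
          simp [h, h2] }
  have hφa : φ a = b := by
    change (if h : a = a then b else (τ ⟨a, h⟩ : V)) = b
    simp
  have hφ : ∀ (i : V) (hi : i ≠ a), φ i = (τ ⟨i, hi⟩ : V) := by
    intro i hi
    change (if h : i = a then b else (τ ⟨i, h⟩ : V)) = _
    simp [hi]
  have h0 : ∀ u v, Cm G φ u v = 0 := by
    apply rank_one (Cm G φ) _ _ (walkSpace G a) (hker φ hφa hφ) hdim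
    · intro u v
      simp only [hCm, SimpleGraph.adjMatrix_apply]
      rw [if_congr (G.adj_comm u v) rfl rfl, if_congr (G.adj_comm (φ u) (φ v)) rfl rfl]
    · intro u
      simp [hCm]
  refine ⟨⟨φ, ?_⟩, hφa, hφ⟩
  intro u v
  have h1 := h0 u v
  simp only [hCm, SimpleGraph.adjMatrix_apply] at h1
  by_cases h2 : G.Adj u v <;> by_cases h3 : G.Adj (φ u) (φ v) <;> simp [h2, h3] at h1 ⊢

end Pool.Agent.Results.MP_50ecf8_co.RootedGodsilMcKay
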