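import Pool.Agent.Lib.MP_50ecf8_co.LOC.KEL
import Pool.Agent.Lib.MP_50ecf8_co.LOC.INC
import Pool.Agent.Lib.MP_50ecf8_co.LOC.TOG
import Pool.Agent.Lib.MP_50ecf8_co.LOC.DIS
import Pool.Agent.Lib.MP_50ecf8_co.LOC.CDS2
import Pool.Agent.Lib.MP_50ecf8_co.LOC.NST
import Pool.Agent.Lib.MP_50ecf8_co.LOC.NPOW
import Pool.Agent.Lib.MP_50ecf8_co.LOC.NTOP
import Pool.Agent.Lib.MP_50ecf8_co.LOC.NLOW
import Pool.Agent.Lib.MP_50ecf8_co.LOC.NUM1
import Pool.Agent.Lib.MP_50ecf8_co.LOC.DET
import Pool.Agent.Lib.MP_50ecf8_co.LOC.BCT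
import Pool.Agent.Lib.MP_50ecf8_co.LOC.PRM
import Pool.Agent.Lib.MP_50ecf8_co.LOC.REPT
import Pool.Agent.Lib.MP_50ecf8_co.LOC.BONT
import Pool.Agent.Lib.MP_50ecf8_co.LOC.H2T
import Pool.Agent.Lib.MP_50ecf8_co.LOC.CONT
import Pool.Agent.Lib.MP_50ecf8_co.LOC.CDST
import Pool.Agent.Lib.MP_50ecf8_co.LOC.STPM
import Pool.Agent.Lib.MP_50ecf8_co.LOC.PAYZ
import Pool.Agent.Lib.MP_50ecf8_co.LOC.SEQZ
import Pool.Agent.Lib.MP_50ecf8_co.LOC.CNTZ
import Pool.Agent.Lib.MP_50ecf8_co.LOC.MAINU
import Pool.Agent.Lib.MP_50ecf8_co.LOC.TOPT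
import Pool.Agent.Lib.MP_50ecf8_co.LOC.STGT
import Pool.Agent.Lib.MP_50ecf8_co.LOC.NFI2
import Pool.Agent.Lib.MP_50ecf8_co.LOC.FINW

/-!
# Q1 for graphs with classes of twins of any size and few near twins

Two vertices are twins if no other vertex is adjacent to exactly one of them. Being twins is an
equivalence relation, and every class of twins is a clique or an independent set. Let `T` be a set
which contains exactly one vertex of each class of twins of `G`; so `G` arises from the induced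
subgraph on `T` (the reduced graph) by substituting cliques or independent sets of arbitrary sizes
for the vertices. Let all degrees of the reduced graph be less than `D ≥ 2`, and let `L = log2 D`.
We prove Q1 for `G` if there are a union `B` of classes of twins with at most `|T| / (150 L)` elements
and a set `C ⊆ T`, the core, such that any two distinct vertices of `T` outside `B ∪ C` have different
neighbourhoods in `B ∪ C`, and every vertex `v` of `C` outside `B` has few near twins: for every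
`r < 200 L ^ 2` at most `2 ^ (r ^ (1/3) / 20)` vertices `u` of `T` outside `B` (`u = v` included) are told
apart from `v` by fewer than `200 L ^ 2` vertices of `T` and by at most `r` vertices of `C`.

For instance this holds, for classes of twins of any sizes, with `B` empty and `C = T` if any two
vertices of `T` are told apart by at least `200 L ^ 2` vertices of `T`.

Idea of the proof. Vertices are located up to twins only, and all vertices outside `T` are kept in the
domain of the partial isomorphisms. If there is no automorphism mapping `a` to `b`, every such domain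
carries a closed partial isomorphism. For a fixed restriction to the seed, up to automorphisms, at
most `4 ^ k` domains with exactly `k` missing vertices carry a closed one, whatever the sizes of the
classes are. The seed is enlarged in stages; the images of the new vertices are only counted up to
twins, and the prices of the stages form a geometric series.
-/

set_option autoImplicit false

namespace Pool.Agent.Results.MP_50ecf8_co.ToldApart

/-- Part 2 of condition (H): `τ` is a bijection from the vertices other than `a` to the vertices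
other than `b`, and for every `i ≠ a` some isomorphism `G - i → G - τ(i)` maps `a` to `b`. -/
def CondH2 {V : Type} (G : SimpleGraph V) (a b : V) : Prop :=
  ∃ τ : {v : V // v ≠ a} ≃ {v : V // v ≠ b},
    ∀ (i : V) (hi : i ≠ a),
      ∃ θ : G.induce ({i}ᶜ : Set V) ≃g G.induce ({(τ ⟨i, hi⟩ : V)}ᶜ : Set V),
        ∀ x : ({i}ᶜ : Set V), (x : V) = a → (θ x : V) = b

/-- `u` and `v` are twins (or equal): no other vertex is adjacent to exactly one of them. -/
def Twins {V : Type} (G : SimpleGraph V) (u v : V) : Prop :=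
  ∀ w : V, w ≠ u → w ≠ v → (G.Adj w u ↔ G.Adj w v)

/-- The number of vertices of `C` which tell `u` and `v` apart: the vertices `w ∈ C`, different from
`u` and `v`, which are adjacent to exactly one of `u` and `v`. -/
noncomputable def toldApart {V : Type} (G : SimpleGraph V) (C : Set V) (u v : V) : ℕ :=
  {w : V | w ∈ C ∧ w ≠ u ∧ w ≠ v ∧ ¬(G.Adj w u ↔ G.Adj w v)}.ncard

/-- The vertices `u` of `T` outside `B` which are told apart from `v` by fewer than `s` vertices of `T`
and by at most `r` vertices of `C`. -/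
def nearTwins {V : Type} (G : SimpleGraph V) (T B C : Set V) (s : ℝ) (v : V) (r : ℕ) : Set V :=
  {u : V | u ∈ T ∧ u ∉ B ∧ (toldApart G T v u : ℝ) < s ∧ toldApart G C v u ≤ r}

/-- **Q1 for graphs with classes of twins of any size and few near twins.** -/
theorem result (V : Type) [Fintype V] (G : SimpleGraph V) (a b : V) (h : CondH2 G a b)
    (T : Set V) (hT : ∀ v : V, ∃! t : V, t ∈ T ∧ Twins G v t)
    (D : ℕ) (hD : 2 ≤ D) (hdeg : ∀ v ∈ T, {w : V | w ∈ T ∧ G.Adj v w}.ncard < D)
    (B C : Set V) (hCT : C ⊆ T) (hBt : ∀ u ∈ B, ∀ v : V, Twins G u v → v ∈ B)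
    (hB : (B.ncard : ℝ) ≤ T.ncard / (150 * Real.logb 2 D)) (hne : ¬ C ⊆ B)
    (hrest : ∀ u ∈ T, u ∉ B ∪ C → ∀ v ∈ T, v ∉ B ∪ C → u ≠ v →
      ∃ w ∈ B ∪ C, ¬(G.Adj w u ↔ G.Adj w v))
    (hnear : ∀ v ∈ C, v ∉ B → ∀ r : ℕ, (r : ℝ) < 200 * Real.logb 2 D ^ 2 →
      ((nearTwins G T B C (200 * Real.logb 2 D ^ 2) v r).ncard : ℝ) ≤
        (2 : ℝ) ^ ((r : ℝ) ^ ((1 : ℝ) / 3) / 20)) :
    ∃ φ : G ≃g G, φ a = b := by
  classical
  have hTrv : Pool.Agent.Lib.MP50ecf8.LOC.Trv G T.toFinset := by
    refine ⟨fun v => ?_, fun s hs t ht hst => ?_⟩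
    · obtain ⟨t, ht, -⟩ := hT v
      exact ⟨t, by simpa using ht.1, ht.2⟩
    · obtain ⟨r, -, hr⟩ := hT s
      have h1 := hr s ⟨by simpa using hs, fun _ _ _ => Iff.rfl⟩
      have h2 := hr t ⟨by simpa using ht, hst⟩
      exact h1.trans h2.symm
  have hsC : ∀ (S : Set V) (u v : V), toldApart G S u v =
      (Pool.Agent.Lib.MP50ecf8.LOC.sC G S.toFinset u v).card := by
    intro S u v
    rw [toldApart, Pool.Agent.Lib.MP50ecf8.LOC.sC, Pool.Agent.Lib.MP50ecf8.LOC.sep,
      Set.ncard_eq_toFinset_card']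
    congr 1
    ext w
    simp
    tauto
  have hNr : ∀ (s : ℝ) (v : V) (r : ℕ),
      Pool.Agent.Lib.MP50ecf8.LOC.Nr G T.toFinset B.toFinset C.toFinset s v r =
        (nearTwins G T B C s v r).toFinset := by
    intro s v r
    ext u
    rw [Set.mem_toFinset]
    simp [Pool.Agent.Lib.MP50ecf8.LOC.Nr, nearTwins, hsC]
    tauto
  refine Pool.Agent.Lib.MP50ecf8.LOC.FW.finV
    (Pool.Agent.Lib.MP50ecf8.LOC.specMAINU Pool.Agent.Lib.MP50ecf8.LOC.specKEL
      Pool.Agent.Lib.MP50ecf8.LOC.inc Pool.Agent.Lib.MP50ecf8.LOC.specTOG)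
    (Pool.Agent.Lib.MP50ecf8.LOC.specCNTZ
      (Pool.Agent.Lib.MP50ecf8.LOC.specBCT Pool.Agent.Lib.MP50ecf8.LOC.specDET)
      Pool.Agent.Lib.MP50ecf8.LOC.specSTPM
      (Pool.Agent.Lib.MP50ecf8.LOC.specPAYZ Pool.Agent.Lib.MP50ecf8.LOC.specPRM)
      Pool.Agent.Lib.MP50ecf8.LOC.specSEQZ)
    (Pool.Agent.Lib.MP50ecf8.LOC.specREPT Pool.Agent.Lib.MP50ecf8.LOC.specPRM)
    Pool.Agent.Lib.MP50ecf8.LOC.specTOPT Pool.Agent.Lib.MP50ecf8.LOC.specSTGT
    Pool.Agent.Lib.MP50ecf8.LOC.specBONT Pool.Agent.Lib.MP50ecf8.LOC.specNFI2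
    Pool.Agent.Lib.MP50ecf8.LOC.specNTOP Pool.Agent.Lib.MP50ecf8.LOC.specNLOW
    Pool.Agent.Lib.MP50ecf8.LOC.specNUM1 Pool.Agent.Lib.MP50ecf8.LOC.specNST
    Pool.Agent.Lib.MP50ecf8.LOC.specNPOW Pool.Agent.Lib.MP50ecf8.LOC.specCONT
    (Pool.Agent.Lib.MP50ecf8.LOC.specCDST Pool.Agent.Lib.MP50ecf8.LOC.specCDS2)
    Pool.Agent.Lib.MP50ecf8.LOC.specH2T Pool.Agent.Lib.MP50ecf8.LOC.specDIS
    h T.toFinset B.toFinset C.toFinset D hTrv ?_ ?_ hD ?_ ?_ ?_ ?_ ?_
  · intro v hv
    have hv' : v ∈ C := by simpa using hv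
    simpa using hCT hv'
  · intro u hu v huv
    have hu' : u ∈ B := by simpa using hu
    simpa using hBt u hu' v huv
  · intro v hv
    refine lt_of_le_of_lt (le_of_eq ?_) (hdeg v (by simpa using hv))
    rw [Set.ncard_eq_toFinset_card']
    congr 1
    ext w
    simp
  · rwa [← Set.ncard_eq_toFinset_card', ← Set.ncard_eq_toFinset_card']
  · rw [Set.not_subset] at hne
    obtain ⟨v, hv, hv'⟩ := hne
    exact ⟨v, by simpa using hv, by simpa using hv'⟩
  · intro v hv hvB r hr
    refine le_trans (le_of_eq ?_) (hnear v (by simpa using hv) (by simpa using hvB) r hr)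
    rw [Set.ncard_eq_toFinset_card', hNr]
  · intro u hu huBC v hv hvBC huv
    obtain ⟨w, hw, h'⟩ := hrest u (by simpa using hu) (by simpa using huBC) v
      (by simpa using hv) (by simpa using hvBC) huv
    exact ⟨w, by simpa using hw, h'⟩

end Pool.Agent.Results.MP_50ecf8_co.ToldApart
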